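import Mathlib
import Pool.Agent.J4.H3.PS.Nec
import Pool.Agent.J4.H3.PS.Suf
import Pool.Agent.J4.H3.PS.AtomsD

/-!
# MP_01f640_al: inverse semigroups in power semigroups of periodic and of finite groups
-/

set_option autoImplicit false

open Pointwise

namespace Pool.Agent.Results.MP_01f640_al.InverseSemigroups

open Pool.Agent.J4.H3.PS

/-- The power `a ^ (n + 1)` in a semigroup. -/
def pw {S : Type} [Mul S] (a : S) : ℕ → S
  | 0 => a
  | n + 1 => pw a n * a

theorem map_pw {S : Type} [Semigroup S] {G : Type} [Group G] (ψ : S →ₙ* Set G) (a : S) (n : ℕ) :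
    ψ (pw a n) = ψ a ^ (n + 1) := by
  induction n with
  | zero => simp [pw]
  | succ n ih => rw [pw, map_mul, ih, pow_succ _ (n + 1)]

theorem quasi_identity {S : Type} [Semigroup S] (hS : IsInv S) (hE : EmbPer S) (a : S)
    (m r : ℕ) (h : pw a (m + (r + 1)) = pw a m) : pw a r * pw a r = pw a r := by
  obtain ⟨G, _, hG, ψ, hinj⟩ := hE
  have h1 := quasi hG (MulHom.srange ψ) (by
      rintro _ ⟨a, rfl⟩
      obtain ⟨b, h1, h2⟩ := hS.1 a
      exact ⟨ψ b, ⟨b, rfl⟩, by rw [← map_mul, ← map_mul, h1], by rw [← map_mul, ← map_mul, h2]⟩) (by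
      rintro _ ⟨e, rfl⟩ _ ⟨f, rfl⟩ he hf
      rw [← map_mul] at he hf
      rw [← map_mul, ← map_mul, hS.2 e f (hinj he) (hinj hf)]) (A := ψ a) ⟨a, rfl⟩ (m + 1) (r + 1)
      (by omega) (by omega) (by
        have := congrArg ψ h
        rw [map_pw, map_pw] at this
        rw [show m + 1 + (r + 1) = m + (r + 1) + 1 by ring]
        exact this)
  apply hinj
  rw [map_mul, map_pw, h1]

theorem emb_periodic {S : Type} [Semigroup S] (h : EmbFinite S) : EmbPer S := by
  obtain ⟨G, _, hG, ψ, hinj, -⟩ := h
  exact ⟨G, _, fun x => isOfFinOrder_of_finite x, ψ, hinj⟩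

/-- (1) Let `S` be a finite inverse semigroup, `z` its least idempotent, and suppose that `s = t` as soon
as `s z = t z` and `a s = a t` for all idempotents `a` which cover `z` (the atoms). Then `S` embeds in
the power semigroup of a finite group iff it embeds in that of a periodic group iff `x⁻¹ a x = a` for all
atoms `a` and all `x` with `x z = z` and `a ≤ x x⁻¹`.
(2) In every inverse semigroup which embeds in the power semigroup of a periodic group
`a ^ (m + r) = a ^ m` implies `a ^ (2 * r) = a ^ r` (the index of `a` is at most its period), and for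
idempotents `e`, `f` and elements `x` with inverse `y` the equation `x z = z` for `z = e y f x` implies
`z = e f x y`.
(3) A finite inverse semigroup with trivial subgroups (`a ^ (n + 1) = a ^ n` for some `n`, for all `a`)
embeds in the power semigroup of a finite group iff it embeds in that of a periodic group iff it is a
semilattice.
(4) Every finite semigroup which is separated by homomorphisms to semigroups `E⁰`, `E` a finite
`E`-unitary inverse semigroup, embeds in the power semigroup of a finite group. -/
theorem result :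
    (∀ (S : Type) [Semigroup S] [Finite S], IsInv S → ∀ z : S, z * z = z →
      (∀ e : S, e * e = e → e * z = z) →
      (∀ s t : S, s * z = t * z → (∀ a, IsAtomOver z a → a * s = a * t) → s = t) →
      List.TFAE [EmbFinite S, EmbPer S,
        ∀ a x y : S, IsAtomOver z a → x * y * x = x → y * x * y = y → x * z = z →
          a * (x * y) = a → y * a * x = a]) ∧
    (∀ (S : Type) [Semigroup S], IsInv S → EmbPer S →
      (∀ (a : S) (m r : ℕ), pw a (m + (r + 1)) = pw a m → pw a r * pw a r = pw a r) ∧
      ∀ e f x y z : S, e * e = e → f * f = f → x * y * x = x → y * x * y = y →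
        e * (y * f * x) = z → x * z = z → e * f * (x * y) = z) ∧
    (∀ (S : Type) [Semigroup S] [Finite S], IsInv S → (∀ a : S, ∃ n : ℕ, pw a (n + 1) = pw a n) →
      List.TFAE [EmbFinite S, EmbPer S, ∀ a : S, a * a = a]) ∧
    (∀ (S : Type) [Semigroup S] [Finite S], Separated S → EmbFinite S) := by
  refine ⟨fun S _ _ hS z hz hmin hsep => atoms_tfae hS z hz hmin hsep,
    fun S _ hS hE => ⟨fun a m r h => quasi_identity hS hE a m r h,
      fun e f x y z => quasi_identity3 hS hE e f x y z⟩, ?_, fun S _ _ h => embeds_sep h⟩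
  intro S _ _ hS hap
  tfae_have 1 → 2 := emb_periodic
  tfae_have 2 → 3 := by
    intro hE a
    obtain ⟨n, hn⟩ := hap a
    exact quasi_identity hS hE a n 0 hn
  tfae_have 3 → 1 := by
    intro h
    exact embeds' ⟨hS, PUnit, inferInstance, ⟨fun _ => 1, fun _ _ => rfl⟩, fun a _ => h a⟩
  tfae_finish

end Pool.Agent.Results.MP_01f640_al.InverseSemigroups
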